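import Mathlib

set_option autoImplicit false

/-!
# The minimal number of non-associative triples in a quasigroup of order `n`, `3 ∣ n`, `5 ∣ n`, `7 ∣ n`
-/

namespace Pool.Agent.Results.MP_890ede_al.MultiplesOfSmallPrimes

/-- `op` is a quasigroup operation: `a x = b` and `y a = b` have exactly one solution `x`, `y`. -/
def IsQuasigroup {Q : Type} (op : Q → Q → Q) : Prop :=
  (∀ a b, ∃! x, op a x = b) ∧ ∀ a b, ∃! y, op y a = b

/-- the number of non-associative triples -/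
def nonAssoc {Q : Type} [Fintype Q] [DecidableEq Q] (op : Q → Q → Q) : ℕ :=
  (Finset.univ.filter fun t : Q × Q × Q => op t.1 (op t.2.1 t.2.2) ≠ op (op t.1 t.2.1) t.2.2).card

/-- `σ(n)`: the least positive number of non-associative triples in a quasigroup of order `n` -/
noncomputable def sigma (n : ℕ) : ℕ :=
  sInf {s | 0 < s ∧ ∃ op : Fin n → Fin n → Fin n, IsQuasigroup op ∧ nonAssoc op = s}

/-- there is a quasigroup of order `n` with exactly `s` non-associative triples, and `σ(n) ≤ s` -/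
def Attained (n s : ℕ) : Prop :=
  (∃ op : Fin n → Fin n → Fin n, IsQuasigroup op ∧ nonAssoc op = s) ∧ sigma n ≤ s

section transport

variable {Q Q' : Type}

def tr (e : Q ≃ Q') (op : Q → Q → Q) : Q' → Q' → Q' := fun x y => e (op (e.symm x) (e.symm y))

theorem tr_quasi (e : Q ≃ Q') (op : Q → Q → Q) (h : IsQuasigroup op) : IsQuasigroup (tr e op) := by
  refine ⟨fun a b => ?_, fun a b => ?_⟩
  · obtain ⟨x, hx, hu⟩ := h.1 (e.symm a) (e.symm b)
    refine ⟨e x, ?_, fun y hy => ?_⟩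
    · simp only [tr, Equiv.symm_apply_apply, hx, Equiv.apply_symm_apply]
    · have h1 : op (e.symm a) (e.symm y) = e.symm b := by
        rw [← hy]; simp only [tr, Equiv.symm_apply_apply]
      rw [← hu _ h1, Equiv.apply_symm_apply]
  · obtain ⟨x, hx, hu⟩ := h.2 (e.symm a) (e.symm b)
    refine ⟨e x, ?_, fun y hy => ?_⟩
    · simp only [tr, Equiv.symm_apply_apply, hx, Equiv.apply_symm_apply]
    · have h1 : op (e.symm y) (e.symm a) = e.symm b := by
        rw [← hy]; simp only [tr, Equiv.symm_apply_apply]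
      rw [← hu _ h1, Equiv.apply_symm_apply]

theorem tr_nonAssoc [Fintype Q] [DecidableEq Q] [Fintype Q'] [DecidableEq Q'] (e : Q ≃ Q') (op : Q → Q → Q) : nonAssoc (tr e op) = nonAssoc op := by
  unfold nonAssoc
  symm
  refine Finset.card_bij (fun t _ => (e t.1, e t.2.1, e t.2.2)) ?_ ?_ ?_
  · intro t ht
    simp only [Finset.mem_filter, Finset.mem_univ, true_and, tr, Equiv.symm_apply_apply] at ht ⊢
    exact fun h => ht (e.injective h)
  · rintro ⟨a, b, c⟩ _ ⟨a', b', c'⟩ _ h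
    simp only [Prod.mk.injEq, EmbeddingLike.apply_eq_iff_eq] at h
    simp only [h.1, h.2.1, h.2.2]
  · rintro ⟨a, b, c⟩ h
    refine ⟨(e.symm a, e.symm b, e.symm c), ?_, by simp⟩
    simp only [Finset.mem_filter, Finset.mem_univ, true_and, tr, Equiv.symm_apply_apply] at h ⊢
    exact fun h' => h (by rw [h'])

theorem sigma_le [Fintype Q] [DecidableEq Q] {n : ℕ} (hn : Fintype.card Q = n) (op : Q → Q → Q) (h : IsQuasigroup op)
    (s : ℕ) (hs : 0 < s) (hc : nonAssoc op = s) : Attained n s := by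
  have e : Q ≃ Fin n := Fintype.equivFinOfCardEq hn
  exact ⟨⟨tr e op, tr_quasi e op h, by rw [tr_nonAssoc, hc]⟩,
    Nat.sInf_le ⟨hs, tr e op, tr_quasi e op h, by rw [tr_nonAssoc, hc]⟩⟩

end transport

/-- the product of `ZMod p` and `ZMod m` with the table on `(i, 0), (j, c₀)` replaced by `L` -/
def tw (p m : ℕ) (L : ZMod p → ZMod p → ZMod p) (c₀ : ZMod m) :
    ZMod p × ZMod m → ZMod p × ZMod m → ZMod p × ZMod m :=
  fun x y => (if x.2 = 0 ∧ y.2 = c₀ then L x.1 y.1 else x.1 + y.1, x.2 + y.2)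

theorem tw_quasi (p m : ℕ) [NeZero p] [NeZero m] (L : ZMod p → ZMod p → ZMod p) (c₀ : ZMod m)
    (h1 : ∀ i, Function.Injective (L i)) (h2 : ∀ j, Function.Injective fun i => L i j) :
    IsQuasigroup (tw p m L c₀) := by
  refine ⟨fun x b => ?_, fun y b => ?_⟩
  · have hinj : Function.Injective (tw p m L c₀ x) := by
      rintro ⟨j, c⟩ ⟨j', c'⟩ h
      simp only [tw, Prod.mk.injEq] at h
      obtain ⟨ha, hb⟩ := h
      have hc : c = c' := add_left_cancel hb
      subst hc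
      congr 1
      by_cases hh : x.2 = 0 ∧ c = c₀
      · rw [if_pos hh, if_pos hh] at ha
        exact h1 _ ha
      · rw [if_neg hh, if_neg hh] at ha
        exact add_left_cancel ha
    exact (Finite.injective_iff_bijective.1 hinj).existsUnique b
  · have hinj : Function.Injective fun x => tw p m L c₀ x y := by
      rintro ⟨j, c⟩ ⟨j', c'⟩ h
      simp only [tw, Prod.mk.injEq] at h
      obtain ⟨ha, hb⟩ := h
      have hc : c = c' := add_right_cancel hb
      subst hc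
      congr 1
      by_cases hh : c = 0 ∧ y.2 = c₀
      · rw [if_pos hh, if_pos hh] at ha
        exact h2 _ ha
      · rw [if_neg hh, if_neg hh] at ha
        exact add_right_cancel ha
    exact (Finite.injective_iff_bijective.1 hinj).existsUnique b

/-- the operation of the first coordinates -/
def o (p : ℕ) (L : ZMod p → ZMod p → ZMod p) (e : Bool) (i j : ZMod p) : ZMod p :=
  if e = true then L i j else i + j

/-- the number of non-associative triples above a triple of second coordinates -/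
def cnt (p : ℕ) [NeZero p] (L : ZMod p → ZMod p → ZMod p) (e1 e2 e3 e4 : Bool) : ℕ :=
  (Finset.univ.filter fun v : ZMod p × ZMod p × ZMod p =>
    o p L e4 v.1 (o p L e2 v.2.1 v.2.2) ≠ o p L e3 (o p L e1 v.1 v.2.1) v.2.2).card

/-- the rearrangement of the coordinates -/
def eqv (A B : Type) : (B × B × B) × (A × A × A) ≃ (A × B) × (A × B) × (A × B) where
  toFun t := ((t.2.1, t.1.1), (t.2.2.1, t.1.2.1), (t.2.2.2, t.1.2.2))
  invFun t := ((t.1.2, t.2.1.2, t.2.2.2), (t.1.1, t.2.1.1, t.2.2.1))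
  left_inv _ := rfl
  right_inv _ := rfl

theorem tw_nonAssoc (p m : ℕ) [NeZero p] [NeZero m] (L : ZMod p → ZMod p → ZMod p) (c₀ : ZMod m) :
    nonAssoc (tw p m L c₀) = ∑ u : ZMod m × ZMod m × ZMod m,
      cnt p L (decide (u.1 = 0 ∧ u.2.1 = c₀)) (decide (u.2.1 = 0 ∧ u.2.2 = c₀))
        (decide (u.1 + u.2.1 = 0 ∧ u.2.2 = c₀)) (decide (u.1 = 0 ∧ u.2.1 + u.2.2 = c₀)) := by
  unfold nonAssoc
  rw [Finset.card_filter, ← Fintype.sum_equiv (eqv (ZMod p) (ZMod m)) _ _ (fun _ => rfl),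
    Fintype.sum_prod_type]
  refine Finset.sum_congr rfl fun u _ => ?_
  unfold cnt
  rw [Finset.card_filter]
  refine Finset.sum_congr rfl fun v _ => ?_
  have : (tw p m L c₀ (v.1, u.1) (tw p m L c₀ (v.2.1, u.2.1) (v.2.2, u.2.2)) ≠
      tw p m L c₀ (tw p m L c₀ (v.1, u.1) (v.2.1, u.2.1)) (v.2.2, u.2.2)) ↔
      (o p L (decide (u.1 = 0 ∧ u.2.1 + u.2.2 = c₀)) v.1
        (o p L (decide (u.2.1 = 0 ∧ u.2.2 = c₀)) v.2.1 v.2.2) ≠
      o p L (decide (u.1 + u.2.1 = 0 ∧ u.2.2 = c₀))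
        (o p L (decide (u.1 = 0 ∧ u.2.1 = c₀)) v.1 v.2.1) v.2.2) := by
    simp only [tw, o, decide_eq_true_eq, ne_eq, Prod.mk.injEq, not_and, add_assoc]
    tauto
  simp only [eqv, Equiv.coe_fn_mk]
  exact if_congr this rfl rfl

section sums

variable (m : ℕ) [NeZero m] (c₀ : ZMod m)

theorem sum1 : (∑ u : ZMod m × ZMod m × ZMod m, if u.1 = 0 ∧ u.2.1 = c₀ then (1 : ℤ) else 0) = m := by
  simp [Fintype.sum_prod_type, ite_and]
  rw [Finset.card_filter, Fintype.sum_prod_type]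
  simp [apply_ite Finset.card, ZMod.card]

theorem sum2 : (∑ u : ZMod m × ZMod m × ZMod m, if u.2.1 = 0 ∧ u.2.2 = c₀ then (1 : ℤ) else 0) = m := by
  simp [Fintype.sum_prod_type, ite_and]

theorem sum3 : (∑ u : ZMod m × ZMod m × ZMod m, if u.1 + u.2.1 = 0 ∧ u.2.2 = c₀ then (1 : ℤ) else 0) = m := by
  have h : ∀ a c : ZMod m, a + c = 0 ↔ c = -a := fun a c => by
    rw [add_comm, add_eq_zero_iff_eq_neg]
  simp [Fintype.sum_prod_type, ite_and, h]

theorem sum4 : (∑ u : ZMod m × ZMod m × ZMod m, if u.1 = 0 ∧ u.2.1 + u.2.2 = c₀ then (1 : ℤ) else 0) = m := by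
  have h : ∀ a c : ZMod m, a + c = c₀ ↔ c = c₀ - a := fun a c => by
    rw [add_comm, eq_sub_iff_add_eq]
  simp [Fintype.sum_prod_type, ite_and, h]
  rw [Finset.card_filter, Fintype.sum_prod_type]
  simp [ZMod.card]

theorem sum5 (a c d : ZMod m) :
    (∑ u : ZMod m × ZMod m × ZMod m, if u.1 = a ∧ u.2.1 = c ∧ u.2.2 = d then (1 : ℤ) else 0) = 1 := by
  simp [Fintype.sum_prod_type, ite_and]

end sums

/-! ### `3 ∣ n` -/

def L3 : ZMod 3 → ZMod 3 → ZMod 3 := fun i j => -i + j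

theorem cnt3 : ∀ e1 e2 e3 e4 : Bool,
    cnt 3 L3 e1 e2 e3 e4 = if (xor e3 e1 = e4 ∧ e3 = e2) then 0 else 18 := by
  decide +kernel

theorem main3 (m : ℕ) (hm : 2 ≤ m) : Attained (3 * m) (24 * (3 * m) - 90) := by
  have : NeZero m := ⟨by omega⟩
  have : Fact (1 < m) := ⟨by omega⟩
  have h01 : (0 : ZMod m) ≠ 1 := zero_ne_one
  refine sigma_le (Q := ZMod 3 × ZMod m) (by simp [ZMod.card]) (tw 3 m L3 1)
    (tw_quasi 3 m L3 1 (fun i j j' h => by simpa [L3] using h) (fun j i i' h => by simpa [L3] using h))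
    _ (by omega) ?_
  rw [tw_nonAssoc]
  have key : ∀ u : ZMod m × ZMod m × ZMod m,
      ((cnt 3 L3 (decide (u.1 = 0 ∧ u.2.1 = 1)) (decide (u.2.1 = 0 ∧ u.2.2 = 1))
        (decide (u.1 + u.2.1 = 0 ∧ u.2.2 = 1)) (decide (u.1 = 0 ∧ u.2.1 + u.2.2 = 1)) : ℕ) : ℤ) =
      18 * ((if u.1 = 0 ∧ u.2.1 = 1 then 1 else 0) + (if u.2.1 = 0 ∧ u.2.2 = 1 then 1 else 0) +
        (if u.1 + u.2.1 = 0 ∧ u.2.2 = 1 then 1 else 0) + (if u.1 = 0 ∧ u.2.1 + u.2.2 = 1 then 1 else 0)
        - 2 * (if u.1 = 0 ∧ u.2.1 = 1 ∧ u.2.2 = 0 then 1 else 0)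
        - 3 * (if u.1 = 0 ∧ u.2.1 = 0 ∧ u.2.2 = 1 then 1 else 0)) := by
    rintro ⟨a, c, d⟩
    simp only [cnt3]
    by_cases ha : a = 0
    · subst ha
      by_cases hc0 : c = 0
      · subst hc0
        by_cases hd : d = 1
        · subst hd
          simp [h01]
        · simp [h01, hd]
      · by_cases hc1 : c = 1
        · subst hc1
          by_cases hd : d = 0
          · subst hd
            simp [h01]
          · by_cases hd1 : d = 1
            · subst hd1
              simp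
            · simp [hd, hd1]
        · by_cases hcd : c + d = 1
          · simp [hc0, hc1, hcd]
          · simp [hc0, hc1, hcd]
    · by_cases hd : d = 1
      · subst hd
        by_cases hc0 : c = 0
        · subst hc0
          simp [ha]
        · by_cases hac : a + c = 0
          · simp [ha, hc0, hac]
          · simp [ha, hc0, hac]
      · simp [ha, hd]
  have h2 : ((∑ u : ZMod m × ZMod m × ZMod m,
      cnt 3 L3 (decide (u.1 = 0 ∧ u.2.1 = 1)) (decide (u.2.1 = 0 ∧ u.2.2 = 1))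
        (decide (u.1 + u.2.1 = 0 ∧ u.2.2 = 1)) (decide (u.1 = 0 ∧ u.2.1 + u.2.2 = 1)) : ℕ) : ℤ) =
      18 * (4 * m - 5) := by
    rw [Nat.cast_sum, Finset.sum_congr rfl fun u _ => key u, ← Finset.mul_sum, Finset.sum_sub_distrib,
      Finset.sum_sub_distrib, Finset.sum_add_distrib, Finset.sum_add_distrib, Finset.sum_add_distrib,
      ← Finset.mul_sum, ← Finset.mul_sum, sum1, sum2, sum3, sum4, sum5, sum5]
    ring
  omega

/-! ### `5 ∣ n` and `7 ∣ n` -/

theorem mainp (p t s : ℕ) [NeZero p] (L : ZMod p → ZMod p → ZMod p)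
    (h1 : ∀ i, Function.Injective (L i)) (h2 : ∀ j, Function.Injective fun i => L i j)
    (hc : cnt p L false false false false = 0 ∧ cnt p L true false false false = t ∧
      cnt p L false true false false = t ∧ cnt p L false false true false = t ∧
      cnt p L false false false true = t ∧ cnt p L true true true true = s)
    (hs : 0 < s) (hst : s ≤ 4 * t) (m : ℕ) (hm : 1 ≤ m) : Attained (p * m) (4 * t * m - (4 * t - s)) := by
  have : NeZero m := ⟨by omega⟩
  obtain ⟨c0, c1, c2, c3, c4, c5⟩ := hc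
  have hm4 : 4 * t ≤ 4 * t * m := Nat.le_mul_of_pos_right _ hm
  refine sigma_le (Q := ZMod p × ZMod m) (by simp [ZMod.card]) (tw p m L 0)
    (tw_quasi p m L 0 h1 h2) _ (by omega) ?_
  rw [tw_nonAssoc]
  have key : ∀ u : ZMod m × ZMod m × ZMod m,
      ((cnt p L (decide (u.1 = 0 ∧ u.2.1 = 0)) (decide (u.2.1 = 0 ∧ u.2.2 = 0))
        (decide (u.1 + u.2.1 = 0 ∧ u.2.2 = 0)) (decide (u.1 = 0 ∧ u.2.1 + u.2.2 = 0)) : ℕ) : ℤ) =
      t * ((if u.1 = 0 ∧ u.2.1 = 0 then 1 else 0) + (if u.2.1 = 0 ∧ u.2.2 = 0 then 1 else 0) +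
        (if u.1 + u.2.1 = 0 ∧ u.2.2 = 0 then 1 else 0) + (if u.1 = 0 ∧ u.2.1 + u.2.2 = 0 then 1 else 0))
        - (4 * t - s) * (if u.1 = 0 ∧ u.2.1 = 0 ∧ u.2.2 = 0 then 1 else 0) := by
    rintro ⟨a, c, d⟩
    by_cases ha : a = 0
    · subst ha
      by_cases hc0 : c = 0
      · subst hc0
        by_cases hd : d = 0
        · subst hd
          simp [c5]
          ring
        · simp [hd, c1]
      · by_cases hcd : c + d = 0
        · simp [hc0, hcd, c4]
        · simp [hc0, hcd, c0]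
    · by_cases hd : d = 0
      · subst hd
        by_cases hc0 : c = 0
        · subst hc0
          simp [ha, c2]
        · by_cases hac : a + c = 0
          · simp [ha, hc0, hac, c3]
          · simp [ha, hc0, hac, c0]
      · simp [ha, hd, c0]
  have h3 : ((∑ u : ZMod m × ZMod m × ZMod m,
      cnt p L (decide (u.1 = 0 ∧ u.2.1 = 0)) (decide (u.2.1 = 0 ∧ u.2.2 = 0))
        (decide (u.1 + u.2.1 = 0 ∧ u.2.2 = 0)) (decide (u.1 = 0 ∧ u.2.1 + u.2.2 = 0)) : ℕ) : ℤ) =
      4 * t * m - (4 * t - s) := by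
    rw [Nat.cast_sum, Finset.sum_congr rfl fun u _ => key u, Finset.sum_sub_distrib, ← Finset.mul_sum,
      Finset.sum_add_distrib, Finset.sum_add_distrib, Finset.sum_add_distrib,
      ← Finset.mul_sum, sum1, sum2, sum3, sum4, sum5]
    ring
  zify [hst, (by omega : 4 * t - s ≤ 4 * t * m)]
  exact_mod_cast h3

def L5 : ZMod 5 → ZMod 5 → ZMod 5 :=
  (![![0, 1, 2, 3, 4], ![1, 2, 3, 4, 0], ![2, 0, 4, 1, 3], ![3, 4, 0, 2, 1], ![4, 3, 1, 0, 2]] :
    Fin 5 → Fin 5 → Fin 5)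

def L7 : ZMod 7 → ZMod 7 → ZMod 7 :=
  (![![0, 1, 2, 3, 4, 5, 6], ![1, 2, 3, 4, 5, 6, 0], ![2, 3, 1, 5, 6, 0, 4], ![3, 4, 5, 6, 0, 1, 2],
    ![4, 5, 6, 0, 3, 2, 1], ![5, 6, 0, 1, 2, 4, 3], ![6, 0, 4, 2, 1, 3, 5]] :
    Fin 7 → Fin 7 → Fin 7)

theorem main5 (m : ℕ) (hm : 1 ≤ m) : Attained (5 * m) (32 * (5 * m) - 114) := by
  have h := mainp 5 40 46 L5 (by decide +kernel) (by decide +kernel) (by decide +kernel) (by norm_num)
    (by norm_num) m hm
  have e : 4 * 40 * m - (4 * 40 - 46) = 32 * (5 * m) - 114 := by omega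
  rwa [e] at h

theorem main7 (m : ℕ) (hm : 1 ≤ m) : Attained (7 * m) (36 * (7 * m) - 134) := by
  have h := mainp 7 63 118 L7 (by decide +kernel) (by decide +kernel) (by decide +kernel) (by norm_num)
    (by norm_num) m hm
  have e : 4 * 63 * m - (4 * 63 - 118) = 36 * (7 * m) - 134 := by omega
  rwa [e] at h

/-- the group of order `9` with `3` added if both factors are `1` modulo `3` -/
def op9 : Fin 9 → Fin 9 → Fin 9 := fun x y => x + y + if x.1 % 3 = 1 ∧ y.1 % 3 = 1 then 3 else 0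

theorem main9 : Attained 9 108 := by
  refine sigma_le (Q := Fin 9) (by simp) op9 ?_ _ (by norm_num) (by decide +kernel)
  have h1 : ∀ a, Function.Injective (op9 a) := by decide +kernel
  have h2 : ∀ b, Function.Injective fun a => op9 a b := by decide +kernel
  exact ⟨fun a b => (Finite.injective_iff_bijective.1 (h1 a)).existsUnique b,
    fun a b => (Finite.injective_iff_bijective.1 (h2 a)).existsUnique b⟩

/-- Upper bounds for `σ(n)` if `n` is divisible by `3`, `5` or `7`. -/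
theorem result :
    Attained 9 108 ∧
    (∀ n : ℕ, 3 ∣ n → 6 ≤ n → Attained n (24 * n - 90)) ∧
    (∀ n : ℕ, 5 ∣ n → 5 ≤ n → Attained n (32 * n - 114)) ∧
    (∀ n : ℕ, 7 ∣ n → 7 ≤ n → Attained n (36 * n - 134)) := by
  refine ⟨main9, ?_, ?_, ?_⟩
  · rintro _ ⟨m, rfl⟩ h
    exact main3 m (by omega)
  · rintro _ ⟨m, rfl⟩ h
    exact main5 m (by omega)
  · rintro _ ⟨m, rfl⟩ h
    exact main7 m (by omega)

end Pool.Agent.Results.MP_890ede_al.MultiplesOfSmallPrimes
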